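import Pool.Agent.H187R3.Defs

/-!
# Definitions: projective log Calabi-Yau pairs over imperfect fields, and the Stein degree

Everything below is for schemes in `Scheme.{0}`, and we only consider varieties over fields `k`
which are finitely generated (as fields) over their prime field; this is a subclass of the class of
all log Calabi-Yau pairs, so that unboundedness for this subclass is the stronger statement.

As in `Pool.Agent.H187R3.Defs`, the canonical divisor of a normal variety `X` over such a field `k`
is computed by absolute Kaehler differentials: `K_X` is the divisor of a nonzero rational top form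
`dt_1 ∧ ... ∧ dt_r` of `Ω_{K(X)/ℤ}` with respect to the lattices `Ω_{O_{X,x}/ℤ}`, `x` a point of
codimension one (`IsFormOrder`).
-/

open AlgebraicGeometry CategoryTheory Order Pool.Agent.H187R3

namespace Pool.Agent.W498.Stein

/-- The log canonical condition for a pair `(X, B)` with `m (K_X + B) = div g`, where `m > 0`,
`g ≠ 0` is a rational function on `X` and `K_X` is the canonical divisor of `X` defined by the top
form `dt_1 ∧ ... ∧ dt_r`. For every proper birational morphism `f : W → X` from a normal integral
scheme `W`, write `K_W + B_W = f^* (K_X + B)`, where `K_W` is the divisor of the pulled back form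
`f^* (dt_1 ∧ ... ∧ dt_r)`; thus the coefficient of `B_W` along the prime divisor with generic point
`w` is `ord_w (f^* g) / m - n`, with `n` the order of `f^* (dt_1 ∧ ... ∧ dt_r)` at `w`. The
condition says that all these coefficients are at most `1`. -/
def IsLogCanonicalWith (X : Scheme.{0}) [IsIntegral X] [IsLocallyNoetherian X] {ι : Type}
    [Fintype ι] [DecidableEq ι] (t : ι → X.functionField) (m : ℕ) (g : X.functionField) : Prop :=
  ∀ (W : Scheme.{0}) (_ : IsIntegral W) (_ : IsLocallyNoetherian W) (f : W ⟶ X)
    (_ : IsProper f) (_ : IsDominant f), Function.Bijective (functionFieldMap f) →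
    IsNormalScheme W → ∀ w : W, coheight w = 1 →
      ∃ n : ℤ, IsFormOrder W (fun i => functionFieldMap f (t i)) w n ∧
        (Scheme.ord (functionFieldMap f g) w : ℚ) / m - n ≤ 1

/-- `IsLogCalabiYauPair d X B`: the pair `(X, B)`, together with the structure morphism
`X → Y = Spec k`, `k = H⁰(X, O_X)`, is a log Calabi-Yau fibration of dimension `d` over the field
`k`, where `k` is finitely generated over its prime field. That is:
`k = H⁰(X, O_X)` is a field, essentially of finite type over `ℤ` (finitely generated as a field),
`X → Spec k` is proper, `X` has an ample Cartier divisor (so `X` is projective over `k`), the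
function field of `X` has transcendence degree `d` over `k` (so `dim X = d`), `X` is normal, the
`ℚ`-divisor `B` (a function `X → ℚ`, of which only the values at the points of codimension one
matter) is effective, and for some canonical divisor `KX` of `X`, the divisor of a rational top form
`dt_1 ∧ ... ∧ dt_r`, some `m > 0` and some rational function `g ≠ 0` we have
`m (KX + B) = div g` (that is, `K_X + B ∼_ℚ 0`), and `(X, B)` is log canonical. -/
def IsLogCalabiYauPair (d : ℕ) (X : Scheme.{0}) [IsIntegral X] [IsLocallyNoetherian X]
    (B : X → ℚ) : Prop :=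
  IsField Γ(X, ⊤) ∧ Algebra.EssFiniteType ℤ Γ(X, ⊤) ∧ IsProper X.toSpecΓ ∧
    (∃ H : X → ℤ, IsAmpleDivisor X H) ∧
    @Algebra.trdeg Γ(X, ⊤) X.functionField _ _ (globalAlgebra X) = d ∧ IsNormalScheme X ∧
    (∀ x : X, coheight x = 1 → 0 ≤ B x) ∧
    ∃ (ι : Type) (_ : Fintype ι) (_ : DecidableEq ι) (t : ι → X.functionField) (KX : X → ℤ)
      (m : ℕ) (g : X.functionField),
      (∀ x : X, coheight x = 1 → IsFormOrder X t x (KX x)) ∧ 0 < m ∧ g ≠ 0 ∧
      (∀ x : X, coheight x = 1 → (m : ℚ) * (KX x + B x) = Scheme.ord g x) ∧
      IsLogCanonicalWith X t m g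

/-- The Stein degree over `Y = Spec k`, `k = H⁰(X, O_X)`, of a closed subvariety `i : S → X`:
the dimension `dim_k H⁰(S, O_S)`. -/
noncomputable def steinDegree {S X : Scheme.{0}} (i : S ⟶ X) : ℕ :=
  letI : Algebra Γ(X, ⊤) Γ(S, ⊤) := i.appTop.hom.toAlgebra
  Module.finrank Γ(X, ⊤) Γ(S, ⊤)

end Pool.Agent.W498.Stein
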