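import Pool.Agent.H187R3.Klt
import Pool.Agent.W498.Stein.Defs

/-!
The pair `(X_M, B)`, `B = -K_X` the divisor of `Y_0`, is log canonical.
-/

open AlgebraicGeometry CategoryTheory Order Pool.Agent.H187R3

namespace Pool.Agent.W498.Stein

lemma isDVR_stalk {W : Scheme.{0}} [IsIntegral W] [IsLocallyNoetherian W]
    (hW : IsNormalScheme W) (w : W) (hw : coheight w = 1) :
    IsDiscreteValuationRing (W.presheaf.stalk w) := by
  have h1 : Ring.KrullDimLE 1 (W.presheaf.stalk w) := krullDimLE_of_coheight_le hw.le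
  have h2 : IsIntegrallyClosed (W.presheaf.stalk w) := hW w
  have hnf : ¬ IsField (W.presheaf.stalk w) := by
    intro hf
    have h3 := ringKrullDim_stalk_eq_coheight w
    rw [hw, ringKrullDim_eq_zero_of_isField hf] at h3
    exact absurd h3 (by decide)
  have h5 := (IsDiscreteValuationRing.TFAE (W.presheaf.stalk w) hnf).out 3 0
  apply h5.mp
  refine ⟨h2, IsLocalRing.maximalIdeal _, ⟨?_, inferInstance⟩, ?_⟩
  · intro h
    exact hnf (IsLocalRing.isField_iff_maximalIdeal_eq.mpr h)
  · rintro P ⟨hP, hP'⟩
    exact IsLocalRing.eq_maximalIdeal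
      (Ring.krullDimLE_one_iff_of_noZeroDivisors.mp h1 P hP hP')

/-- `D y` for `y` of order `m ≥ 1` lies in `ϖ ^ (m - 1)` times the lattice of differentials. -/
lemma D_mem_smul {R L : Type} [CommRing R] [IsDomain R] [Field L] [Algebra R L]
    [IsFractionRing R L] (ϖ u : R) (m : ℕ) :
    ∃ η ∈ diffLattice R L, KaehlerDifferential.D ℤ L (algebraMap R L (u * ϖ ^ (m + 1))) =
      (algebraMap R L ϖ) ^ m • η := by
  have hD : ∀ r : R, KaehlerDifferential.D ℤ L (algebraMap R L r) ∈ diffLattice R L := fun r =>
    Submodule.subset_span ⟨r, rfl⟩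
  refine ⟨ϖ • KaehlerDifferential.D ℤ L (algebraMap R L u) +
    (((m : R) + 1) * u) • KaehlerDifferential.D ℤ L (algebraMap R L ϖ),
    Submodule.add_mem _ (Submodule.smul_mem _ _ (hD u)) (Submodule.smul_mem _ _ (hD ϖ)), ?_⟩
  rw [map_mul, map_pow, Derivation.leibniz, Derivation.leibniz_pow]
  simp only [add_tsub_cancel_right]
  rw [← algebraMap_smul L ϖ, ← algebraMap_smul L (((m : R) + 1) * u), smul_add, smul_smul,
    smul_smul, map_mul, map_add, map_one, map_natCast, add_comm]
  congr 1
  · rw [pow_succ]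
  · rw [← Nat.cast_smul_eq_nsmul L (m + 1), smul_smul, smul_smul]
    congr 1
    push_cast
    ring

end Pool.Agent.W498.Stein

namespace Pool.Agent.W498.Stein

lemma ord_irreducible {W : Scheme.{0}} [IsIntegral W] [IsLocallyNoetherian W]
    (w : W) (hw : coheight w = 1) [IsDiscreteValuationRing (W.presheaf.stalk w)]
    {ϖ : W.presheaf.stalk w} (hϖ : Irreducible ϖ) :
    Scheme.ord (algebraMap _ W.functionField ϖ) w = 1 := by
  have hne : algebraMap (W.presheaf.stalk w) W.functionField ϖ ≠ 0 := by
    rw [Ne, FaithfulSMul.algebraMap_eq_zero_iff]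
    exact hϖ.ne_zero
  rw [Scheme.ord_eq_iff hw hne]
  have : Ring.KrullDimLE 1 (W.presheaf.stalk w) := krullDimLE_of_coheight_le hw.le
  exact Ring.ordFrac_irreducible hϖ

lemma ord_pow' {W : Scheme.{0}} [IsIntegral W] [IsLocallyNoetherian W] (w : W)
    {f : W.functionField} (hf : f ≠ 0) (n : ℕ) : Scheme.ord (f ^ n) w = n * Scheme.ord f w := by
  induction n with
  | zero => simp [ord_one']
  | succ n ih =>
    rw [pow_succ, Scheme.ord_mul (pow_ne_zero n hf) hf, ih]
    push_cast
    ring

lemma ord_unit' {W : Scheme.{0}} [IsIntegral W] [IsLocallyNoetherian W] (w : W)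
    {u : W.presheaf.stalk w} (hu : IsUnit u) :
    Scheme.ord (algebraMap _ W.functionField u) w = 0 := by
  by_cases hw : coheight w = 1
  · have hne : algebraMap (W.presheaf.stalk w) W.functionField u ≠ 0 := (hu.map _).ne_zero
    rw [Scheme.ord_eq_iff hw hne]
    have : Ring.KrullDimLE 1 (W.presheaf.stalk w) := krullDimLE_of_coheight_le hw.le
    exact Ring.ordFrac_of_isUnit hu
  · exact Scheme.ord_eq_zero_of_coheight_neq_one hw _

theorem ord_det_ge {W : Scheme.{0}} [IsIntegral W] [IsLocallyNoetherian W]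
    (hW : IsNormalScheme W) (w : W) (hw : coheight w = 1) {ι : Type} [Fintype ι] [DecidableEq ι]
    (c : Module.Basis ι W.functionField (Ω[W.functionField⁄ℤ]))
    (hc : (Submodule.span (W.presheaf.stalk w) (Set.range c) :
      Submodule (W.presheaf.stalk w) _) = diffLattice (W.presheaf.stalk w) W.functionField)
    (b : ι → Ω[W.functionField⁄ℤ])
    (hb : ∀ v, b v ∈ Submodule.span (W.presheaf.stalk w) (Set.range c))
    (v0 : ι) (r : W.presheaf.stalk w) (hr : r ≠ 0)
    (hv0 : b v0 = KaehlerDifferential.D ℤ W.functionField (algebraMap _ _ r))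
    (hdet : c.det b ≠ 0) :
    Scheme.ord (algebraMap _ W.functionField r) w - 1 ≤ Scheme.ord (c.det b) w := by
  have hdvr := isDVR_stalk hW w hw
  obtain ⟨ϖ, hϖ⟩ := IsDiscreteValuationRing.exists_irreducible (W.presheaf.stalk w)
  obtain ⟨n, u, rfl⟩ := IsDiscreteValuationRing.eq_unit_mul_pow_irreducible hr hϖ
  have hϖ0 : algebraMap (W.presheaf.stalk w) W.functionField ϖ ≠ 0 := by
    rw [Ne, FaithfulSMul.algebraMap_eq_zero_iff]
    exact hϖ.ne_zero
  have hu0 : algebraMap (W.presheaf.stalk w) W.functionField u ≠ 0 := (u.isUnit.map _).ne_zero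
  have hord : Scheme.ord (algebraMap (W.presheaf.stalk w) W.functionField (u * ϖ ^ n)) w = n := by
    rw [map_mul, map_pow, Scheme.ord_mul hu0 (pow_ne_zero n hϖ0), ord_unit' w u.isUnit,
      ord_pow' w hϖ0, ord_irreducible w hw hϖ]
    ring
  rw [hord]
  cases n with
  | zero =>
    obtain ⟨s, hs⟩ := det_mem_range c b hb
    have h1 := ord_nonneg w s (by rw [hs]; exact hdet)
    rw [hs] at h1
    push_cast
    omega
  | succ m =>
    obtain ⟨η, hη, hD⟩ := D_mem_smul (L := W.functionField) ϖ (u : W.presheaf.stalk w) m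
    rw [hD] at hv0
    have h1 : b = Function.update b v0
        ((algebraMap (W.presheaf.stalk w) W.functionField ϖ) ^ m • η) := by
      rw [← hv0, Function.update_eq_self]
    have h2 : c.det b = (algebraMap (W.presheaf.stalk w) W.functionField ϖ) ^ m *
        c.det (Function.update b v0 η) := by
      conv_lhs => rw [h1]
      rw [AlternatingMap.map_update_smul, smul_eq_mul]
    rw [h2] at hdet ⊢
    have hne := right_ne_zero_of_mul hdet
    rw [Scheme.ord_mul (pow_ne_zero m hϖ0) hne, ord_pow' w hϖ0, ord_irreducible w hw hϖ]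
    obtain ⟨s, hs⟩ := det_mem_range c (Function.update b v0 η) (by
      intro v
      by_cases hv : v = v0
      · subst hv
        rw [Function.update_self, hc]
        exact hη
      · rw [Function.update_of_ne hv]
        exact hb v)
    have h3 := ord_nonneg w s (by rw [hs]; exact hne)
    rw [hs] at h3
    push_cast
    omega

end Pool.Agent.W498.Stein

namespace Pool.Agent.W498.Stein

variable (M : ℕ)

/-- `Y_0 / Y_i` is one of the chart coordinates of the chart `i ≠ 0`. -/
lemma exists_tau_eq (i : Fin 3) (hi : i ≠ 0) : ∃ v0 : VV M, tau M i v0 = yq M i 0 := by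
  obtain ⟨m, hm⟩ := Fin.exists_succ_eq.mpr hi
  refine ⟨Sum.inr m, ?_⟩
  apply kap_injective
  rw [kap_tau, kap_yq]
  have h : sw i m.succ = 0 := by
    rw [hm]
    exact Equiv.swap_apply_right 0 i
  simp only [coord, h]

theorem isLC : IsLogCanonicalWith (XM M) (tau M 0) 1 1 := by
  intro W _ _ f _ _ hf hnorm w hw
  set i := ch M (f w) with hi
  have hmem : f w ∈ Proj.basicOpen (AA M) (ys M i) := mem_ch M (f w)
  obtain ⟨φ, hinj, hv, hloc⟩ := exists_phi M i (f w) hmem
  have hess : Algebra.EssFiniteType ℤ (W.presheaf.stalk w) := by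
    have h1 : Algebra.EssFiniteType ℤ ((XM M).presheaf.stalk (f w)) := essFiniteType_of_loc φ hloc
    have h2 := LocallyOfFiniteType.stalkMap f w
    algebraize [(f.stalkMap w).hom]
    have : IsScalarTower ℤ ((XM M).presheaf.stalk (f w)) (W.presheaf.stalk w) := by
      infer_instance
    exact Algebra.EssFiniteType.comp ℤ ((XM M).presheaf.stalk (f w)) (W.presheaf.stalk w)
  obtain ⟨c0, hc0⟩ := exists_basis_model M f hf 0
  obtain ⟨ci, hci⟩ := exists_basis_model M f hf i
  obtain ⟨n, hn⟩ := exists_isFormOrder W hnorm w hw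
    (fun v => functionFieldMap f (tau M 0 v)) c0 hc0
  refine ⟨n, hn, ?_⟩
  obtain ⟨c, hspan, hne, hord⟩ := hn
  let e : (XM M).functionField ≃+* W.functionField := RingEquiv.ofBijective _ hf
  let κL : W.functionField →+* FF M := (kap M).comp e.symm.toRingHom
  have hκL : ∀ z, κL (functionFieldMap f z) = kap M z := by
    intro z
    change kap M (e.symm (e z)) = _
    rw [RingEquiv.symm_apply_apply]
  have hjac := jacobian κL i (fun v => functionFieldMap f (tau M 0 v))
    (fun v => functionFieldMap f (tau M i v)) (fun v => by rw [hκL, kap_tau])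
    (fun v => by rw [hκL, kap_tau]) ci hci
  have hylab : ylab i (fun v => functionFieldMap f (tau M i v)) 0 =
      functionFieldMap f (yq M i 0) := by
    apply κL.injective
    rw [hκL, kap_yq, kap_ylab κL i _ (fun v => by rw [hκL, kap_tau])]
  rw [hylab, ← map_inv₀, yq_inv] at hjac
  have hdet : c.det (fun v => KaehlerDifferential.D ℤ W.functionField
      (functionFieldMap f (tau M 0 v))) = c.det ci * functionFieldMap f (yq M 0 i) := by
    rw [← hjac]
    have := congrArg (fun g => g (fun v => KaehlerDifferential.D ℤ W.functionField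
      (functionFieldMap f (tau M 0 v)))) (c.det.eq_smul_basis_det ci)
    exact this
  have hyne : functionFieldMap f (yq M 0 i) ≠ 0 := by
    rw [map_ne_zero_iff _ hf.1]; exact yq_ne M _ _
  have hyne' : functionFieldMap f (yq M i 0) ≠ 0 := by
    rw [map_ne_zero_iff _ hf.1]; exact yq_ne M _ _
  have hcne : c.det ci ≠ 0 := by
    intro h
    rw [hdet, h, zero_mul] at hne
    exact hne rfl
  rw [hdet, Scheme.ord_mul hcne hyne] at hord
  have hinv : Scheme.ord (functionFieldMap f (yq M 0 i)) w =
      - Scheme.ord (functionFieldMap f (yq M i 0)) w := by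
    have h1 : Scheme.ord (functionFieldMap f (yq M 0 i) * functionFieldMap f (yq M i 0)) w = 0 := by
      rw [← map_mul, yq_mul, yq_self, map_one, ord_one']
    rw [Scheme.ord_mul hyne hyne'] at h1
    omega
  have hmemR : ∀ v, ci v ∈ Submodule.span (W.presheaf.stalk w) (Set.range c) := by
    intro v
    rw [hspan, hci, ← hv v, functionFieldMap_algebraMap]
    exact Submodule.subset_span ⟨_, rfl⟩
  have hn' : -1 ≤ n := by
    by_cases hi0 : i = 0
    · obtain ⟨r, hr⟩ := det_mem_range c ci hmemR
      have hpos := ord_nonneg w r (by rw [hr]; exact hcne)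
      rw [hr] at hpos
      have h0 : Scheme.ord (functionFieldMap f (yq M 0 i)) w = 0 := by
        rw [hi0, yq_self, map_one, ord_one']
      omega
    · obtain ⟨v0, hv0⟩ := exists_tau_eq M i hi0
      have h1 : functionFieldMap f (yq M i 0) = algebraMap (W.presheaf.stalk w) W.functionField
          ((f.stalkMap w).hom (φ (MvPolynomial.X v0))) := by
        rw [← hv0, ← hv v0, functionFieldMap_algebraMap]
      have hr : (f.stalkMap w).hom (φ (MvPolynomial.X v0)) ≠ 0 := by
        intro h
        rw [h, map_zero] at h1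
        exact hyne' h1
      have h2 := ord_det_ge hnorm w hw c hspan ci hmemR v0 _ hr
        (by rw [hci, ← h1, hv0]) hcne
      rw [← h1] at h2
      omega
  rw [map_one, ord_one']
  have : (-1 : ℚ) ≤ n := by exact_mod_cast hn'
  simp only [Int.cast_zero, Nat.cast_one, div_one]
  linarith

end Pool.Agent.W498.Stein
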