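import Pool.Agent.W498.Stein.Point

/-!
Algebra in the chart `1`: squares of the denominators, and the local ring of a point of
codimension one on `Y_0 = 0`.
-/

open AlgebraicGeometry CategoryTheory Order Pool.Agent.H187R3 HomogeneousLocalization MvPolynomial

namespace Pool.Agent.W498.Stein

variable (M : ℕ)

lemma pderiv_sq (v : VV M) (U : BB M) : pderiv v (U ^ 2) = 0 := by
  have h2 : (2 : BB M) = 0 := by
    have : ((2 : ℕ) : BB M) = 0 := CharP.cast_eq_zero (BB M) 2
    exact_mod_cast this
  rw [pow_two, Derivation.leibniz, ← two_mul, h2, zero_mul]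

lemma exists_B (i : Fin 3) (c : P0 M) : ∃ B : BB M, psi M i B = dn M c ^ 2 ∧
    ∀ v : VV M, v ≠ Sum.inl (Sum.inl 0) → pderiv v B = 0 := by
  induction c using MvPolynomial.induction_on with
  | C a =>
    refine ⟨C a, ?_, fun v _ => by simp⟩
    have ha : a = 0 ∨ a = 1 := by revert a; decide
    rcases ha with rfl | rfl <;> simp
  | add p q hp hq =>
    obtain ⟨B1, h1, h1'⟩ := hp
    obtain ⟨B2, h2, h2'⟩ := hq
    refine ⟨B1 + B2, ?_, ?_⟩
    · rw [map_add, map_add, h1, h2, CharTwo.add_sq]
    · intro v hv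
      rw [map_add, h1' v hv, h2' v hv, add_zero]
  | mul_X p j hp =>
    obtain ⟨B1, h1, h1'⟩ := hp
    obtain ⟨U, hU⟩ := u_mem M i j
    obtain ⟨Q, hQ⟩ := qdiv_mem M i j
    have hU' : psi M i U = uF M i j := hU
    have hQ' : psi M i Q = qF M j / yF M i ^ 2 := hQ
    have hE : psi M i (X (Sum.inl (Sum.inl 0))) = tF M (Sum.inl i) ^ 2 := by
      rw [psi, aeval_X]
      simp [coord]
    have ht : dn M (X j) = tF M j := by
      simp [dn_apply, i0, tF, Tv]
    refine ⟨B1 * (U ^ 2 + X (Sum.inl (Sum.inl 0)) * Q ^ 2), ?_, ?_⟩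
    · rw [map_mul, map_add, map_mul, map_pow, map_pow, h1, hU', hQ', hE, map_mul, mul_pow, ht]
      congr 1
      rw [uF, CharTwo.add_sq, mul_pow, add_assoc, add_self_FF, add_zero]
    · intro v hv
      rw [Derivation.leibniz, h1' v hv, map_add, pderiv_sq, Derivation.leibniz, pderiv_sq,
        pderiv_X_of_ne (Ne.symm hv)]
      simp

/-- the embedding of a stalk in the big field -/
noncomputable def ks (s : XM M) : (XM M).presheaf.stalk s →+* FF M :=
  (kap M).comp (algebraMap _ (XM M).functionField)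

lemma ks_injective (s : XM M) : Function.Injective (ks M s) :=
  (kap M).injective.comp (IsFractionRing.injective ((XM M).presheaf.stalk s) (XM M).functionField)

/-- the localization map of the chart `i` at the point `s` -/
noncomputable def phs (i : Fin 3) (s : XM M) (hs : s ∈ Proj.basicOpen (AA M) (ys M i)) :
    BB M →+* (XM M).presheaf.stalk s := (gs M i s hs).comp (phi0 M i)

lemma ks_phs (i : Fin 3) (s : XM M) (hs : s ∈ Proj.basicOpen (AA M) (ys M i)) (b : BB M) :
    ks M s (phs M i s hs b) = psi M i b := by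
  change kap M (algebraMap _ (XM M).functionField (gs M i s hs (phi0 M i b))) = _
  rw [kap_gs, av_phi0]

lemma phs_loc (i : Fin 3) (s : XM M) (hs : s ∈ Proj.basicOpen (AA M) (ys M i))
    (a : (XM M).presheaf.stalk s) :
    ∃ b t : BB M, IsUnit (phs M i s hs t) ∧ a * phs M i s hs t = phs M i s hs b := by
  obtain ⟨φ, hφ, hloc⟩ := stalk_chart M i s hs
  have h : φ = phs M i s hs := by
    ext b
    · have h0 : b = 0 ∨ b = 1 := by revert b; decide
      rcases h0 with rfl | rfl <;> simp
    · apply ks_injective M s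
      rw [ks_phs]
      exact hφ _
  subst h
  exact hloc a

lemma phs_injective (i : Fin 3) (s : XM M) (hs : s ∈ Proj.basicOpen (AA M) (ys M i)) :
    Function.Injective (phs M i s hs) := by
  intro a b hab
  apply psi_injective M i
  rw [← ks_phs M i s hs, ← ks_phs M i s hs, hab]

section
variable (s : XM M) (h1 : s ∈ Proj.basicOpen (AA M) (ys M 1))
  (h0 : s ∉ Proj.basicOpen (AA M) (ys M 0)) (hs : coheight s = 1)

include h0 in
lemma v0_not_isUnit : ¬ IsUnit (phs M 1 s h1 (X (v0 M))) := by
  obtain ⟨a, ha, hu⟩ := unit_iff M 1 0 s h1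
  have h : phs M 1 s h1 (X (v0 M)) = a := by
    apply ks_injective M s
    rw [ks_phs, psi, aeval_X, coord_v0]
    exact ha.symm
  rw [h, hu]
  exact h0

include h0 in
lemma v0_prime : Prime (phs M 1 s h1 (X (v0 M))) :=
  prime_of_loc (phs M 1 s h1) (phs_injective M 1 s h1) (phs_loc M 1 s h1) MvPolynomial.X_prime
    (v0_not_isUnit M s h1 h0)

include h0 in
lemma v0_irreducible : Irreducible (phs M 1 s h1 (X (v0 M))) :=
  (v0_prime M s h1 h0).irreducible

include h1 h0 hs in
lemma KX_s : KX M s = -1 := by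
  have hdvr := isDVR_stalk (isNormal_XM M) s hs
  have h := ord_irreducible s hs (v0_irreducible M s h1 h0)
  have h2 : algebraMap _ (XM M).functionField (phs M 1 s h1 (X (v0 M))) = yq M 1 0 := by
    apply kap_injective
    rw [kap_yq]
    have := ks_phs M 1 s h1 (X (v0 M))
    rw [psi, aeval_X, coord_v0] at this
    exact this
  rw [h2] at h
  rw [KX_eq M 1 s h1]
  have h3 : Scheme.ord (yq M 0 1 * yq M 1 0) s = 0 := by
    rw [yq_mul, yq_self, ord_one']
  rw [Scheme.ord_mul (yq_ne M _ _) (yq_ne M _ _), h] at h3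
  omega

include h0 hs in
lemma mem_maximal_iff (b : BB M) :
    phs M 1 s h1 b ∈ IsLocalRing.maximalIdeal ((XM M).presheaf.stalk s) ↔ X (v0 M) ∣ b := by
  have hdvr := isDVR_stalk (isNormal_XM M) s hs
  have hmax : IsLocalRing.maximalIdeal ((XM M).presheaf.stalk s) =
      Ideal.span {phs M 1 s h1 (X (v0 M))} :=
    (IsDiscreteValuationRing.irreducible_iff_uniformizer _).mp (v0_irreducible M s h1 h0)
  rw [hmax, Ideal.mem_span_singleton]
  constructor
  · rintro ⟨a, ha⟩
    obtain ⟨b', t, ht, hbt⟩ := phs_loc M 1 s h1 a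
    have h2 : b * t = X (v0 M) * b' := by
      apply phs_injective M 1 s h1
      rw [map_mul, map_mul, ha, ← hbt]
      ring
    rcases (MvPolynomial.X_prime (R := F2) (i := v0 M)).dvd_or_dvd ⟨b', h2⟩ with h | h
    · exact h
    · exact absurd (isUnit_of_dvd_unit (map_dvd _ h) ht) (v0_not_isUnit M s h1 h0)
  · exact fun h => map_dvd _ h

include h1 h0 hs in
lemma mem_two : s ∈ Proj.basicOpen (AA M) (ys M 2) := by
  obtain ⟨a, ha, hu⟩ := unit_iff M 1 2 s h1
  have h : phs M 1 s h1 (X (v1 M)) = a := by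
    apply ks_injective M s
    rw [ks_phs, psi, aeval_X, coord_v1]
    exact ha.symm
  rw [← hu, ← h]
  by_contra hcon
  have h2 : phs M 1 s h1 (X (v1 M)) ∈ IsLocalRing.maximalIdeal ((XM M).presheaf.stalk s) := hcon
  rw [mem_maximal_iff M s h1 h0 hs, X_dvd_X] at h2
  exact absurd h2 (by simp [v0, v1])

end

end Pool.Agent.W498.Stein
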