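import Pool.Agent.W498.Stein.Sec
import Pool.Agent.H187R3.Main

/-!
Unboundedness of the Stein degree.
-/

open AlgebraicGeometry CategoryTheory Order Pool.Agent.H187R3 HomogeneousLocalization MvPolynomial

namespace Pool.Agent.W498.Stein

variable (M : ℕ)

lemma isField_global : IsField Γ(XM M, ⊤) := by
  obtain ⟨e, he⟩ := exists_globalIso M
  exact e.symm.toMulEquiv.isField (isField_AA0 M)

lemma ks_germ (s : XM M) (e : AA M 0 ≃+* Γ(XM M, ⊤)) (he : ∀ a : AA M 0,
    kap M ((XM M).presheaf.germ ⊤ (genericPoint (XM M)) trivial (e a)) = ((a : SR M) : FF M))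
    (a : AA M 0) : ks M s ((XM M).presheaf.germ ⊤ s trivial (e a)) = ((a : SR M) : FF M) := by
  rw [← he a]
  have : Nonempty ((⊤ : (XM M).Opens)) := ⟨⟨s, trivial⟩⟩
  have h := Scheme.algebraMap_germ_eq_germToFunctionField (X := XM M) (U := ⊤) (x := s) trivial
    (e a)
  change kap M (algebraMap _ (XM M).functionField ((XM M).presheaf.germ ⊤ s trivial (e a))) = _
  rw [h]

lemma finite_global {S : Scheme.{0}} [IsIntegral S] (i : S ⟶ XM M) [IsClosedImmersion i] :
    i.appTop.hom.Finite := by
  have hft : Algebra.FiniteType (AA M 0) (SR M) := finiteType_SR M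
  have hprop : IsProper (XM M).toSpecΓ := isProper_toSpecΓ M
  let _ := (isField_global M).toField
  let f : S ⟶ Spec (.of Γ(XM M, ⊤)) := i ≫ (XM M).toSpecΓ
  have h1 : UniversallyClosed f := inferInstanceAs (UniversallyClosed (i ≫ (XM M).toSpecΓ))
  have h2 : LocallyOfFiniteType f := inferInstanceAs (LocallyOfFiniteType (i ≫ (XM M).toSpecΓ))
  have h3 := finite_appTop_of_universallyClosed Γ(XM M, ⊤) f
  have h5 : ((XM M).toSpecΓ.appTop ≫ i.appTop).hom.Finite := h3
  rw [CommRingCat.hom_comp] at h5
  exact RingHom.Finite.of_comp_finite h5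

theorem linearIndependent_sections {S : Scheme.{0}} [IsIntegral S] (i : S ⟶ XM M)
    (h1 : i (genericPoint S) ∈ Proj.basicOpen (AA M) (ys M 1))
    (h0 : i (genericPoint S) ∉ Proj.basicOpen (AA M) (ys M 0))
    (hs : coheight (i (genericPoint S)) = 1) (α : Fin M → Γ(S, ⊤))
    (hα : ∀ n, S.evaluation ⊤ (genericPoint S) trivial (α n) =
      i.residueFieldMap (genericPoint S) ((XM M).residue (i (genericPoint S))
        (phs M 1 (i (genericPoint S)) h1 (X (an M n))))) :
    @LinearIndependent _ Γ(XM M, ⊤) Γ(S, ⊤) α _ _ i.appTop.hom.toAlgebra.toModule := by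
  let _ : Algebra Γ(XM M, ⊤) Γ(S, ⊤) := i.appTop.hom.toAlgebra
  rw [Fintype.linearIndependent_iff]
  intro c hc m
  obtain ⟨e, he⟩ := exists_globalIso M
  let _ := (sqHom M).toAlgebra
  have hfr := isFractionRing_AA0 M
  obtain ⟨b, hb⟩ := IsLocalization.exist_integer_multiples_of_finite (nonZeroDivisors (P0 M))
    (fun n => e.symm (c n))
  choose f hf using hb
  have hf' : ∀ n, e (sqHom M (f n)) = e (sqHom M b) * c n := by
    intro n
    have h3 : sqHom M (f n) = sqHom M b * e.symm (c n) := by
      have := hf n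
      rw [Algebra.smul_def] at this
      exact this
    rw [h3, map_mul, RingEquiv.apply_symm_apply]
  have hzero : ∑ n, (XM M).evaluation ⊤ (i (genericPoint S)) trivial (c n) *
      (XM M).residue (i (genericPoint S)) (phs M 1 (i (genericPoint S)) h1 (X (an M n))) = 0 := by
    have hinj : Function.Injective (i.residueFieldMap (genericPoint S)).hom :=
      (i.residueFieldMap (genericPoint S)).hom.injective
    apply hinj
    rw [map_zero, map_sum]
    have h3 := congrArg (S.evaluation ⊤ (genericPoint S) trivial).hom hc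
    rw [map_sum, map_zero] at h3
    rw [← h3]
    refine Finset.sum_congr rfl fun n _ => ?_
    have h4 : c n • α n = i.appTop.hom (c n) * α n := rfl
    rw [h4, map_mul, map_mul]
    have h5 := Scheme.evaluation_naturality_apply i (V := ⊤) (genericPoint S) trivial (c n)
    have h6 : (S.evaluation ⊤ (genericPoint S) trivial).hom (α n) = _ := hα n
    rw [h6]
    congr 1
  have hsum : ∑ n, IsLocalRing.residue ((XM M).presheaf.stalk (i (genericPoint S)))
      ((XM M).presheaf.germ ⊤ (i (genericPoint S)) trivial (e (sqHom M (f n)))) *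
      IsLocalRing.residue ((XM M).presheaf.stalk (i (genericPoint S)))
        (phs M 1 (i (genericPoint S)) h1 (X (an M n))) = 0 := by
    have h3 : ∀ n, IsLocalRing.residue ((XM M).presheaf.stalk (i (genericPoint S)))
      ((XM M).presheaf.germ ⊤ (i (genericPoint S)) trivial (e (sqHom M (f n)))) =
      IsLocalRing.residue ((XM M).presheaf.stalk (i (genericPoint S)))
        ((XM M).presheaf.germ ⊤ (i (genericPoint S)) trivial (e (sqHom M b))) *
      IsLocalRing.residue ((XM M).presheaf.stalk (i (genericPoint S)))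
        ((XM M).presheaf.germ ⊤ (i (genericPoint S)) trivial (c n)) := by
      intro n
      rw [hf', map_mul, map_mul]
    simp only [h3, mul_assoc]
    rw [← Finset.mul_sum]
    have h4 : ∑ n, IsLocalRing.residue ((XM M).presheaf.stalk (i (genericPoint S)))
        ((XM M).presheaf.germ ⊤ (i (genericPoint S)) trivial (c n)) *
      IsLocalRing.residue ((XM M).presheaf.stalk (i (genericPoint S)))
        (phs M 1 (i (genericPoint S)) h1 (X (an M n))) = 0 := hzero
    rw [h4, mul_zero]
  set s := i (genericPoint S) with hsdef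
  have key := lin_indep M s h1 h0 hs f
    (fun n => (XM M).presheaf.germ ⊤ s trivial (e (sqHom M (f n))))
    (fun n => by rw [ks_germ M s e he, sqHom_coe])
    (fun n hn => by
      have h4 : sqHom M (f n) ≠ 0 := fun h => hn (sqHom_injective M (by rw [h, map_zero]))
      obtain ⟨y, hy⟩ := (isField_AA0 M).mul_inv_cancel h4
      have h5 : IsUnit (sqHom M (f n)) := IsUnit.of_mul_eq_one y hy
      exact (h5.map e).map ((XM M).presheaf.germ ⊤ s trivial).hom)
    hsum m
  have h6 := hf' m
  rw [key, map_zero, map_zero] at h6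
  have h7 : e (sqHom M b) ≠ 0 := by
    intro h
    have h8 : sqHom M (b : P0 M) = 0 := by
      apply e.injective
      rw [h, map_zero]
    exact nonZeroDivisors.coe_ne_zero b (sqHom_injective M (by rw [h8, map_zero]))
  have hdom : IsDomain Γ(XM M, ⊤) := (isField_global M).isDomain
  exact (mul_eq_zero.mp h6.symm).resolve_left h7

theorem exists_stein : ∃ (S : Scheme.{0}) (i : S ⟶ XM M) (_ : IsIntegral S)
    (_ : IsClosedImmersion i), coheight (i (genericPoint S)) = 1 ∧
      KX M (i (genericPoint S)) = -1 ∧ M ≤ steinDegree i := by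
  obtain ⟨S, i, hS, hicl, hi⟩ := exists_integral_closed (XM M) (sp M)
  have h1 : i (genericPoint S) ∈ Proj.basicOpen (AA M) (ys M 1) := by
    rw [hi]; exact sp_mem_one M
  have h0 : i (genericPoint S) ∉ Proj.basicOpen (AA M) (ys M 0) := by
    rw [hi]; exact sp_notMem_zero M
  have hs : coheight (i (genericPoint S)) = 1 := by
    rw [hi]; exact coheight_sp M
  have h2 : i (genericPoint S) ∈ Proj.basicOpen (AA M) (ys M 2) := mem_two M _ h1 h0 hs
  refine ⟨S, i, hS, hicl, hs, KX_s M _ h1 h0 hs, ?_⟩
  have hcov : ∀ x : S, ∃ j : Fin 2, i x ∈ Proj.basicOpen (AA M) (ys M j.succ) := by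
    intro x
    obtain ⟨j, hj⟩ := cover_XM M (i x)
    have hsp : i (genericPoint S) ⤳ i x :=
      ((genericPoint_spec S).specializes trivial).map i.continuous
    have hj' : i (genericPoint S) ∈ Proj.basicOpen (AA M) (ys M j) :=
      hsp.mem_open (Proj.basicOpen (AA M) (ys M j)).isOpen hj
    have hj0 : j ≠ 0 := by
      rintro rfl
      exact h0 hj'
    obtain ⟨m, rfl⟩ := Fin.exists_succ_eq.mpr hj0
    exact ⟨m, hj⟩
  have hη : ∀ j : Fin 2, i (genericPoint S) ∈ Proj.basicOpen (AA M) (ys M j.succ) := by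
    intro j
    fin_cases j
    · exact h1
    · exact h2
  have hex : ∀ n : Fin M, ∃ α : Γ(S, ⊤), S.evaluation ⊤ (genericPoint S) trivial α =
      i.residueFieldMap (genericPoint S) ((XM M).residue (i (genericPoint S))
        (phs M 1 (i (genericPoint S)) h1 (X (an M n)))) := by
    intro n
    refine exists_section i (fun j : Fin 2 => Proj.basicOpen (AA M) (ys M j.succ)) hcov hη
      (fun j => (Proj.awayToSection (AA M) (ys M j.succ)).hom (phi0 M j.succ (X (an M n)))) _ ?_
    intro j
    fin_cases j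
    · rfl
    · exact (residue_eq M _ h1 h2 h0 n).symm
  choose α hα using hex
  let _ : Algebra Γ(XM M, ⊤) Γ(S, ⊤) := i.appTop.hom.toAlgebra
  have hfin : Module.Finite Γ(XM M, ⊤) Γ(S, ⊤) := finite_global M i
  have hlin := linearIndependent_sections M i h1 h0 hs α hα
  have hnt : Nontrivial Γ(XM M, ⊤) := (isField_global M).nontrivial
  have hle := hlin.fintype_card_le_finrank
  rw [Fintype.card_fin] at hle
  exact hle

end Pool.Agent.W498.Stein

namespace Pool.Agent.W498.Stein

variable (M : ℕ)

lemma KX_nonpos (x : XM M) : KX M x ≤ 0 := by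
  obtain ⟨a, ha, -⟩ := unit_iff M (ch M x) 0 x (mem_ch M x)
  have h1 : algebraMap _ (XM M).functionField a = yq M (ch M x) 0 := by
    apply kap_injective
    rw [ha, kap_yq]
  have h2 := ord_nonneg x a (by rw [h1]; exact yq_ne M _ _)
  rw [h1] at h2
  have h3 : Scheme.ord (yq M 0 (ch M x) * yq M (ch M x) 0) x = 0 := by
    rw [yq_mul, yq_self, ord_one']
  rw [Scheme.ord_mul (yq_ne M _ _) (yq_ne M _ _)] at h3
  rw [KX]
  omega

theorem isLogCY : IsLogCalabiYauPair 2 (XM M) (fun x => -(KX M x : ℚ)) := by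
  have hft : Algebra.FiniteType (AA M 0) (SR M) := finiteType_SR M
  have hprop : IsProper (XM M).toSpecΓ := isProper_toSpecΓ M
  have hcomp : CompactSpace (XM M) :=
    (quasiCompact_iff_compactSpace (XM M).toSpecΓ).mp inferInstance
  obtain ⟨e, he⟩ := exists_globalIso M
  refine ⟨isField_global M, ?_, hprop, ⟨_, isAmple M hcomp⟩, trdeg_XM M, isNormal_XM M, ?_,
    VV M, inferInstance, inferInstance, tau M 0, KX M, 1, 1, fun x _ => isFormOrder_KX M x,
    one_pos, one_ne_zero, ?_, isLC M⟩
  · have h1 : Algebra.EssFiniteType ℤ (AA M 0) := essFiniteType_AA0 M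
    exact (Algebra.EssFiniteType.iff_of_algEquiv (e.toIntAlgEquiv)).mp h1
  · intro x _
    have h : (KX M x : ℚ) ≤ 0 := by exact_mod_cast KX_nonpos M x
    linarith
  · intro x _
    rw [ord_one']
    simp

lemma charP_global : CharP Γ(XM M, ⊤) 2 := by
  have h := germ_injective_of_isIntegral (XM M) (U := ⊤) (genericPoint (XM M)) trivial
  exact (RingHom.charP_iff ((XM M).presheaf.germ ⊤ (genericPoint (XM M)) trivial).hom h 2).mpr
    (inferInstanceAs (CharP (XM M).functionField 2))

/-- Log Calabi-Yau surfaces with a boundary component of coefficient one and large Stein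
degree. -/
theorem main (N : ℕ) : ∃ (X : Scheme.{0}) (_ : IsIntegral X) (_ : IsLocallyNoetherian X)
    (B : X → ℚ), IsLogCalabiYauPair 2 X B ∧ CharP Γ(X, ⊤) 2 ∧
      ∃ (S : Scheme.{0}) (i : S ⟶ X) (_ : IsIntegral S) (_ : IsClosedImmersion i),
        coheight (i (genericPoint S)) = 1 ∧ B (i (genericPoint S)) = 1 ∧ N ≤ steinDegree i := by
  obtain ⟨S, i, hS, hi, hco, hK, hN⟩ := exists_stein N
  refine ⟨XM N, inferInstance, inferInstance, _, isLogCY N, charP_global N, S, i, hS, hi, hco, ?_,
    hN⟩
  simp only [hK]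
  norm_num

end Pool.Agent.W498.Stein
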