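import Pool.Agent.H187R3.Main
import Pool.Agent.W498.Stein.LC

/-!
The generic point of the curve `C_0 = {Y_0 = 0}` of `X_M`.
-/

open AlgebraicGeometry CategoryTheory Order Pool.Agent.H187R3 HomogeneousLocalization

namespace Pool.Agent.W498.Stein

lemma prime_of_loc {B A : Type} [CommRing B] [IsDomain B] [CommRing A] [IsDomain A]
    (φ : B →+* A) (hφ : Function.Injective φ)
    (hloc : ∀ a : A, ∃ b s, IsUnit (φ s) ∧ a * φ s = φ b) {p : B} (hp : Prime p)
    (hnu : ¬ IsUnit (φ p)) : Prime (φ p) := by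
  refine ⟨fun h => hp.ne_zero (hφ (by rw [h, map_zero])), hnu, ?_⟩
  rintro a b ⟨c, hc⟩
  obtain ⟨b1, s1, hs1, h1⟩ := hloc a
  obtain ⟨b2, s2, hs2, h2⟩ := hloc b
  obtain ⟨b3, s3, hs3, h3⟩ := hloc c
  have hkey : p ∣ b1 * b2 * s3 := by
    refine ⟨b3 * s1 * s2, hφ ?_⟩
    simp only [map_mul]
    rw [← h1, ← h2, ← h3]
    calc a * φ s1 * (b * φ s2) * φ s3 = (a * b) * (φ s1 * φ s2 * φ s3) := by ring
      _ = φ p * (c * φ s3 * φ s1 * φ s2) := by rw [hc]; ring
  rcases hp.dvd_or_dvd hkey with h | h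
  · rcases hp.dvd_or_dvd h with h | h
    · left
      have := map_dvd φ h
      rw [← h1] at this
      exact (hs1.dvd_mul_right).mp this
    · right
      have := map_dvd φ h
      rw [← h2] at this
      exact (hs2.dvd_mul_right).mp this
  · exfalso
    exact hnu (isUnit_of_dvd_unit (map_dvd φ h) hs3)

variable (M : ℕ)

/-- the index of the chart coordinate `Y_0 / Y_1` of the chart `1` -/
def v0 : VV M := Sum.inr 0

/-- the index of the chart coordinate `Y_2 / Y_1` of the chart `1` -/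
def v1 : VV M := Sum.inr 1

lemma coord_v0 : coord M 1 (v0 M) = yF M 0 / yF M 1 := by
  have h : sw 1 (Fin.succ 0) = 0 := by decide
  simp only [v0, coord, h]

lemma coord_v1 : coord M 1 (v1 M) = yF M 2 / yF M 1 := by
  have h : sw 1 (Fin.succ 1) = 2 := by decide
  simp only [v1, coord, h]

noncomputable instance isDomain_away (i : Fin 3) : IsDomain (Away (AA M) (ys M i)) :=
  (av_injective M i).isDomain (av M i)

/-- the chart function `Y_0 / Y_1` -/
noncomputable def qfun : Away (AA M) (ys M 1) := phi0 M 1 (MvPolynomial.X (v0 M))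

lemma av_qfun : av M 1 (qfun M) = yF M 0 / yF M 1 := by
  rw [qfun, av_phi0, psi, MvPolynomial.aeval_X, coord_v0]

lemma qfun_eq : qfun M = Away.mk (AA M) (ys_mem M 1) 1 (ys M 0) (ys_mem M 0) := by
  apply av_injective M 1
  rw [av_qfun, av_mk, pow_one, coe_ys]

lemma qfun_not_isUnit : ¬ IsUnit (qfun M) := by
  intro hu
  obtain ⟨z, hz⟩ := hu.exists_right_inv
  obtain ⟨n, s, hs, rfl⟩ := Away.mk_surjective (AA M) (ys_mem M 1) z
  have h1 := congrArg (av M 1) hz
  rw [map_mul, map_one, av_qfun, av_mk] at h1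
  obtain ⟨m, hm, g, hg, hD, h⟩ := (mem_AA M).mp hs
  have hy1 := yF_ne M 1
  have h2 : yF M 0 * (s : FF M) = yF M 1 ^ (n + 1) := by
    have e1 : yF M 1 ^ (n + 1) ≠ 0 := pow_ne_zero _ hy1
    have e2 : yF M 0 / yF M 1 * ((s : FF M) / yF M 1 ^ n) =
      (yF M 0 * (s : FF M)) / yF M 1 ^ (n + 1) := by
      rw [div_mul_div_comm, pow_succ']
    rw [e2, div_eq_one_iff_eq e1] at h1
    exact h1
  have h3 : Yv M 0 * g = Yv M 1 ^ (n + 1) * i0 M m ^ 2 := by
    apply IsFractionRing.injective (PP M) (FF M)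
    simp only [map_mul, map_pow]
    rw [← h, ← dn_apply]
    change yF M 0 * _ = yF M 1 ^ (n + 1) * _
    rw [← h2]; ring
  have h4 := congrArg (evp M (Pi.single 1 1)) h3
  simp only [map_mul, map_pow, evp_i0, evp_Y] at h4
  simp at h4
  exact hm ((pow_eq_zero_iff two_ne_zero).mp h4.symm)

lemma phi0_injective (i : Fin 3) : Function.Injective (phi0 M i) := by
  intro a b hab
  apply psi_injective M i
  rw [← av_phi0, ← av_phi0, hab]

lemma qfun_prime : Prime (qfun M) :=
  prime_of_loc (phi0 M 1) (phi0_injective M 1) (phi0_loc M 1) MvPolynomial.X_prime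
    (qfun_not_isUnit M)

lemma isNoetherianRing_away (i : Fin 3) : IsNoetherianRing (Away (AA M) (ys M i)) :=
  isNoetherianRing_of_loc (phi0 M i) (phi0_loc M i)

/-- the prime ideal `(Y_0 / Y_1)` -/
noncomputable def qideal : PrimeSpectrum (Away (AA M) (ys M 1)) :=
  ⟨Ideal.span {qfun M}, (Ideal.span_singleton_prime (qfun_prime M).ne_zero).mpr (qfun_prime M)⟩

lemma qideal_height : (qideal M).asIdeal.height = 1 := by
  have := isNoetherianRing_away M 1
  apply le_antisymm
  · exact Ideal.height_span_singleton_le_one (qfun_not_isUnit M)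
  · exact Ideal.one_le_height_span_singleton_of_mem_nonZeroDivisors
      (mem_nonZeroDivisors_of_ne_zero (qfun_prime M).ne_zero)

/-- the generic point of the curve `Y_0 = 0` -/
noncomputable def sp : XM M := Proj.awayι (AA M) (ys M 1) (ys_mem M 1) one_pos
  (show Spec (CommRingCat.of (Away (AA M) (ys M 1))) from qideal M)

lemma coheight_sp : coheight (sp M) = 1 := by
  have h1 := coheight_eq_of_isOpenImmersion (x := (show Spec (CommRingCat.of
    (Away (AA M) (ys M 1))) from qideal M)) (Proj.awayι (AA M) (ys M 1) (ys_mem M 1) one_pos)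
  have h2 := idealHeight_eq_coheight (CommRingCat.of (Away (AA M) (ys M 1)))
    (show Spec (CommRingCat.of (Away (AA M) (ys M 1))) from qideal M)
  rw [sp]
  exact h1.trans (h2.symm.trans (qideal_height M))

lemma sp_mem_one : sp M ∈ Proj.basicOpen (AA M) (ys M 1) := by
  rw [← Proj.opensRange_awayι (AA M) (ys M 1) (ys_mem M 1) one_pos]
  exact ⟨_, rfl⟩

lemma sp_notMem_zero : sp M ∉ Proj.basicOpen (AA M) (ys M 0) := by
  intro h
  have h1 : (show Spec (CommRingCat.of (Away (AA M) (ys M 1))) from qideal M) ∈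
      Proj.awayι (AA M) (ys M 1) (ys_mem M 1) one_pos ⁻¹ᵁ Proj.basicOpen (AA M) (ys M 0) := h
  rw [Proj.awayι_preimage_basicOpen (AA M) (ys_mem M 1) one_pos (ys_mem M 0) one_pos] at h1
  apply h1
  have h2 : Away.isLocalizationElem (ys_mem M 1) (ys_mem M 0) = qfun M := by
    apply av_injective M 1
    rw [av_qfun, Away.isLocalizationElem, av_mk]
    simp [coe_ys]
  rw [h2]
  exact Ideal.mem_span_singleton_self _

end Pool.Agent.W498.Stein
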