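import Mathlib

/-!
Integral closed subschemes: the closure of a point, gluing of sections.
-/

open AlgebraicGeometry CategoryTheory Order TopologicalSpace

namespace Pool.Agent.W498.Stein

/-- The scheme theoretic image of the spectrum of a field is integral. -/
theorem exists_integral_closed (X : Scheme.{0}) (s : X) :
    ∃ (S : Scheme.{0}) (i : S ⟶ X) (_ : IsIntegral S) (_ : IsClosedImmersion i),
      i (genericPoint S) = s := by
  let f := X.fromSpecResidueField s
  let pt : Spec (X.residueField s) := default
  have hne : ∀ V : (f.image).Opens, Nonempty V → f.toImage pt ∈ V := by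
    intro V hV
    obtain ⟨v⟩ := hV
    have hd : DenseRange f.toImage := IsDominant.denseRange
    obtain ⟨y, hy⟩ := hd.exists_mem_open V.isOpen ⟨v.1, v.2⟩
    rwa [Subsingleton.elim y pt] at hy
  have hinj : ∀ V : (f.image).Opens, Function.Injective (f.toImage.app V) := by
    intro V
    have := TopCat.Presheaf.app_injective_of_stalkFunctor_map_injective
      (F := (f.image).sheaf) f.toImage.c V (fun x _ => f.stalkFunctor_toImage_injective x)
    exact this
  have hint : IsIntegral f.image := by
    refine ⟨⟨f.toImage pt⟩, fun V hV => ?_⟩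
    have : Nonempty (f.toImage ⁻¹ᵁ V) := ⟨⟨pt, hne V hV⟩⟩
    have : IsIntegral (Spec (X.residueField s)) := inferInstance
    have hdom : IsDomain Γ(Spec (X.residueField s), f.toImage ⁻¹ᵁ V) := inferInstance
    exact (hinj V).isDomain (f.toImage.app V).hom
  refine ⟨f.image, f.imageι, hint, inferInstance, ?_⟩
  have hgen : genericPoint f.image = f.toImage pt := by
    apply (genericPoint_spec f.image).eq
    rw [isGenericPoint_def]
    have hd : DenseRange f.toImage := IsDominant.denseRange
    have hr : Set.range f.toImage = {f.toImage pt} := by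
      ext z
      constructor
      · rintro ⟨y, rfl⟩
        rw [Subsingleton.elim y pt]
        rfl
      · rintro rfl
        exact ⟨pt, rfl⟩
    rw [← hr, hd.closure_range]
  rw [hgen]
  have h1 : f.imageι (f.toImage pt) = (f.toImage ≫ f.imageι) pt := rfl
  rw [h1, f.toImage_imageι]
  simp [f]

/-- On an integral scheme sections are determined by their value at the generic point. -/
lemma evaluation_injective (S : Scheme.{0}) [IsIntegral S] (V : S.Opens)
    (hη : genericPoint S ∈ V) :
    Function.Injective (S.evaluation V (genericPoint S) hη) := by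
  have h1 : Function.Injective (S.presheaf.germ V (genericPoint S) hη) :=
    germ_injective_of_isIntegral S (genericPoint S) hη
  have h2 : Function.Injective (S.residue (genericPoint S)) :=
    RingHom.injective (show S.functionField →+* S.residueField (genericPoint S) from
      (S.residue (genericPoint S)).hom)
  have h4 : S.evaluation V (genericPoint S) hη =
    S.presheaf.germ V (genericPoint S) hη ≫ S.residue (genericPoint S) := rfl
  rw [h4]
  intro a b hab
  simp only [CommRingCat.hom_comp, RingHom.comp_apply] at hab
  exact h1 (h2 hab)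

/-- Functions `f j` on open sets `U j` covering the image of `i : S → X`, with the same value at the
generic point of `S`, glue to a function on `S`. -/
theorem exists_section {S X : Scheme.{0}} (i : S ⟶ X) [IsIntegral S] {J : Type} (U : J → X.Opens)
    (hU : ∀ x : S, ∃ j, i x ∈ U j) (hη : ∀ j, i (genericPoint S) ∈ U j)
    (f : ∀ j, Γ(X, U j)) (z : X.residueField (i (genericPoint S)))
    (hz : ∀ j, X.evaluation (U j) (i (genericPoint S)) (hη j) (f j) = z) :
    ∃ α : Γ(S, ⊤), S.evaluation ⊤ (genericPoint S) trivial α =
      i.residueFieldMap (genericPoint S) z := by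
  have key : ∀ j, S.evaluation (i ⁻¹ᵁ U j) (genericPoint S) (hη j) (i.app (U j) (f j)) =
      i.residueFieldMap (genericPoint S) z := by
    intro j
    rw [← hz j]
    exact (Scheme.evaluation_naturality_apply i (genericPoint S) (hη j) (f j)).symm
  have hres : ∀ (V W : S.Opens) (h : W ≤ V) (hW : genericPoint S ∈ W) (a : Γ(S, V)),
      S.evaluation W (genericPoint S) hW (S.presheaf.map (homOfLE h).op a) =
        S.evaluation V (genericPoint S) (h hW) a := by
    intro V W h hW a
    have h4 : S.evaluation W (genericPoint S) hW =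
      S.presheaf.germ W (genericPoint S) hW ≫ S.residue (genericPoint S) := rfl
    have h5 : S.evaluation V (genericPoint S) (h hW) =
      S.presheaf.germ V (genericPoint S) (h hW) ≫ S.residue (genericPoint S) := rfl
    rw [h4, h5]
    simp only [CommRingCat.hom_comp, RingHom.comp_apply]
    congr 1
    exact TopCat.Presheaf.germ_res_apply S.presheaf (homOfLE h) (genericPoint S) hW a
  obtain ⟨α, hα, -⟩ := S.sheaf.existsUnique_gluing' (fun j => i ⁻¹ᵁ U j) ⊤ (fun j => homOfLE le_top)
    (by
      intro x _
      obtain ⟨j, hj⟩ := hU x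
      exact Opens.mem_iSup.mpr ⟨j, hj⟩)
    (fun j => i.app (U j) (f j)) (by
      intro j k
      apply evaluation_injective S (i ⁻¹ᵁ U j ⊓ i ⁻¹ᵁ U k) ⟨hη j, hη k⟩
      have h1 := hres (i ⁻¹ᵁ U j) (i ⁻¹ᵁ U j ⊓ i ⁻¹ᵁ U k) inf_le_left ⟨hη j, hη k⟩
        (i.app (U j) (f j))
      have h2 := hres (i ⁻¹ᵁ U k) (i ⁻¹ᵁ U j ⊓ i ⁻¹ᵁ U k) inf_le_right ⟨hη j, hη k⟩
        (i.app (U k) (f k))
      rw [key] at h1 h2
      exact h1.trans h2.symm)
  obtain ⟨j, hj⟩ := hU (genericPoint S)
  refine ⟨α, ?_⟩
  have h1 := hres ⊤ (i ⁻¹ᵁ U j) le_top (hη j) α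
  rw [← h1, ← key j]
  congr 1
  exact hα j

end Pool.Agent.W498.Stein
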