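import Pool.Agent.W498.Stein.Lin
import Pool.Agent.W498.Stein.Sub

/-!
Sections on the closure of a point of codimension one on `Y_0 = 0`.
-/

open AlgebraicGeometry CategoryTheory Order Pool.Agent.H187R3 HomogeneousLocalization MvPolynomial

namespace Pool.Agent.W498.Stein

variable (M : ℕ)

/-- the index of the coordinate `u_{a_n}` -/
def an (n : Fin M) : VV M := Sum.inl (Sum.inr (n, false))

lemma psi_an (i : Fin 3) (n : Fin M) : psi M i (X (an M n)) = uF M i (Sum.inr (n, false)) := by
  rw [psi, aeval_X]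
  rfl

/-- the difference of the functions `u_{a_n}` of the charts `1` and `2` -/
lemma u_diff (n : Fin M) : uF M 1 (Sum.inr (n, false)) = uF M 2 (Sum.inr (n, false)) +
    yF M 0 / yF M 1 * (sF M n / yF M 1) * uF M 2 (Sum.inl 1) := by
  have hy1 := yF_ne M 1
  have hy2 := yF_ne M 2
  have e : uF M 2 (Sum.inr (n, false)) +
    yF M 0 / yF M 1 * (sF M n / yF M 1) * uF M 2 (Sum.inl 1) =
      uF M 1 (Sum.inr (n, false)) + (tF M (Sum.inl 2) * (qF M (Sum.inr (n, false)) / yF M 2 ^ 2) +
        tF M (Sum.inl 2) * (qF M (Sum.inr (n, false)) / yF M 2 ^ 2)) := by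
    rw [uF, uF, uF, qF_inr, qF_inl]
    simp only [cY]
    field_simp
    ring
  rw [e, add_self_FF, add_zero]

section
variable (s : XM M) (h1 : s ∈ Proj.basicOpen (AA M) (ys M 1))
  (h2 : s ∈ Proj.basicOpen (AA M) (ys M 2))
  (h0 : s ∉ Proj.basicOpen (AA M) (ys M 0)) (hs : coheight s = 1)

include h0 in
lemma residue_eq (n : Fin M) :
    IsLocalRing.residue ((XM M).presheaf.stalk s) (phs M 1 s h1 (X (an M n))) =
      IsLocalRing.residue ((XM M).presheaf.stalk s) (phs M 2 s h2 (X (an M n))) := by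
  obtain ⟨bs, hbs⟩ := sdiv_mem M 1 n n.2.le
  obtain ⟨bu, hbu⟩ := u_mem M 2 (Sum.inl 1)
  have hbs' : psi M 1 bs = sF M n / yF M 1 := hbs
  have hbu' : psi M 2 bu = uF M 2 (Sum.inl 1) := hbu
  have h : phs M 1 s h1 (X (an M n)) = phs M 2 s h2 (X (an M n)) +
      phs M 1 s h1 (X (v0 M)) * phs M 1 s h1 bs * phs M 2 s h2 bu := by
    apply ks_injective M s
    rw [map_add, map_mul, map_mul, ks_phs, ks_phs, ks_phs, ks_phs, ks_phs, psi_an, psi_an, hbs',
      hbu']
    have : psi M 1 (X (v0 M)) = yF M 0 / yF M 1 := by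
      rw [psi, aeval_X, coord_v0]
    rw [this]
    exact u_diff M n
  have h3 : IsLocalRing.residue ((XM M).presheaf.stalk s) (phs M 1 s h1 (X (v0 M))) = 0 := by
    rw [IsLocalRing.residue_eq_zero_iff]
    exact v0_not_isUnit M s h1 h0
  rw [h, map_add, map_mul, map_mul, h3, zero_mul, zero_mul, add_zero]

include h0 hs in
/-- Linear independence of the residues. -/
lemma lin_indep (f : Fin M → P0 M) (g : Fin M → (XM M).presheaf.stalk s)
    (hg : ∀ n, ks M s (g n) = dn M (f n) ^ 2) (hu : ∀ n, f n ≠ 0 → IsUnit (g n))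
    (hsum : ∑ n, IsLocalRing.residue ((XM M).presheaf.stalk s) (g n) *
      IsLocalRing.residue ((XM M).presheaf.stalk s) (phs M 1 s h1 (X (an M n))) = 0) (m : Fin M) :
    f m = 0 := by
  choose B hB hB' using fun n => exists_B M 1 (f n)
  have hgB : ∀ n, g n = phs M 1 s h1 (B n) := by
    intro n
    apply ks_injective M s
    rw [ks_phs, hg, hB]
  have h3 : phs M 1 s h1 (∑ n, B n * X (an M n)) ∈
      IsLocalRing.maximalIdeal ((XM M).presheaf.stalk s) := by
    rw [← IsLocalRing.residue_eq_zero_iff, ← hsum, map_sum, map_sum]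
    refine Finset.sum_congr rfl fun n _ => ?_
    rw [map_mul, map_mul, hgB]
  rw [mem_maximal_iff M s h1 h0 hs] at h3
  obtain ⟨Q, hQ⟩ := h3
  have h4 := congrArg (pderiv (an M m)) hQ
  rw [map_sum] at h4
  have h5 : ∑ n, pderiv (an M m) (B n * X (an M n)) = B m := by
    rw [Finset.sum_eq_single m]
    · rw [Derivation.leibniz, hB' m _ (by simp [an]), pderiv_X_self]
      simp
    · intro n _ hn
      rw [Derivation.leibniz, hB' n _ (by simp [an]), pderiv_X_of_ne]
      · simp
      · intro h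
        apply hn
        simpa [an] using h
    · simp
  rw [h5, Derivation.leibniz, pderiv_X_of_ne (by simp [an, v0])] at h4
  have h6 : X (v0 M) ∣ B m := by
    rw [h4]
    simp
  rw [← mem_maximal_iff M s h1 h0 hs, ← hgB] at h6
  by_contra hcon
  exact h6 (hu m hcon)

end

end Pool.Agent.W498.Stein
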